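import Pool.Agent.TH998.Tor.Main

set_option autoImplicit false

namespace Pool.Agent.Results.MP_d565f2_an.TorusPowerSavingAllDims

open Pool.Agent.TH998.Tor

/-- The frequencies on the sphere `|ξ|² = n` in `ℤ^d`. -/
def Sph (d n : ℕ) : Set (Fin d → ℤ) := {ξ : Fin d → ℤ | ∑ i, ξ i ^ 2 = (n : ℤ)}

/-- The Laplace eigenfunction on the torus `ℝ^d/ℤ^d` with eigenvalue `4π²n` and Fourier
coefficients `c`. -/
noncomputable def Eig (d n : ℕ) (c : (Fin d → ℤ) → ℂ) : (Fin d → ℝ) → ℂ := fun x =>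
  ∑ᶠ ξ ∈ Sph d n, c ξ * Complex.exp (2 * (Real.pi : ℂ) * Complex.I *
    ∑ i, ((ξ i : ℝ) : ℂ) * ((x i : ℝ) : ℂ))

lemma sph_finite (d n : ℕ) : (Sph d n).Finite := by
  refine (Set.finite_Icc (fun _ : Fin d => -(n : ℤ)) (fun _ => (n : ℤ))).subset ?_
  intro ξ hξ
  have h : ∑ i, ξ i ^ 2 = (n : ℤ) := hξ
  have h1 : ∀ i, |ξ i| ≤ n := by
    intro i
    have h3 : (ξ i) ^ 2 ≤ ∑ j, ξ j ^ 2 :=
      Finset.single_le_sum (f := fun j => ξ j ^ 2) (fun j _ => sq_nonneg _) (Finset.mem_univ i)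
    rw [h] at h3
    have h4 : |ξ i| ≤ ξ i ^ 2 := by
      rw [← sq_abs (ξ i)]
      rcases (abs_nonneg (ξ i)).eq_or_lt with h0 | h0
      · rw [← h0]; norm_num
      · nlinarith
    linarith
  exact ⟨fun i => (abs_le.mp (h1 i)).1, fun i => (abs_le.mp (h1 i)).2⟩

/-- Power saving over the Donnelly-Fefferman bound on every torus: in every dimension `d ≥ 2` a
nonzero Laplace eigenfunction with eigenvalue `4π²n` vanishes at every point to order at most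
`C n^((1 - δ)/2)` with `δ = (d² + 5)^(-(d - 1))`. -/
theorem result : ∀ d : ℕ, 2 ≤ d → ∃ C : ℝ, 0 < C ∧ ∀ n : ℕ, 1 ≤ n → ∀ k : ℕ,
    (∃ c : (Fin d → ℤ) → ℂ, ∃ p : Fin d → ℝ, Eig d n c ≠ 0 ∧
      ∀ j : ℕ, j < k → iteratedFDeriv ℝ j (Eig d n c) p = 0) →
    (k : ℝ) ≤ C * (n : ℝ) ^ ((1 - (1 / ((d : ℝ) ^ 2 + 5)) ^ (d - 1)) / 2) := by
  intro d hd
  obtain ⟨C, hC, H⟩ := sphere_inj d hd
  refine ⟨C + 1, by positivity, ?_⟩
  intro n hn k ⟨c, p, hne, hvan⟩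
  have hU : Eig d n c = U (sph_finite d n).toFinset c := by
    funext x
    unfold Eig U
    rw [finsum_mem_eq_finite_toFinset_sum _ (sph_finite d n)]
  rw [hU] at hne hvan
  set E : ℝ := (n : ℝ) ^ ((1 - (1 / ((d : ℝ) ^ 2 + 5)) ^ (d - 1)) / 2) with hE
  have hE1 : 1 ≤ E := by
    refine Real.one_le_rpow (by exact_mod_cast hn) ?_
    have h5 : (1 : ℝ) / ((d : ℝ) ^ 2 + 5) ≤ 1 := by
      rw [div_le_one (by positivity)]
      nlinarith [sq_nonneg (d : ℝ)]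
    have := pow_le_one₀ (n := d - 1) (show 0 ≤ (1 : ℝ) / ((d : ℝ) ^ 2 + 5) by positivity) h5
    linarith
  have hinj := H n hn (sph_finite d n).toFinset (fun x hx => by
    rw [Set.Finite.mem_toFinset] at hx
    exact hx) ⌈C * E⌉₊ (Nat.le_ceil _)
  have hk := order_le hne hvan hinj
  have hk' : (k : ℝ) ≤ (⌈C * E⌉₊ : ℝ) := by exact_mod_cast hk
  have h1 := (Nat.ceil_lt_add_one (show 0 ≤ C * E by positivity)).le
  calc (k : ℝ) ≤ C * E + 1 := hk'.trans h1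
    _ ≤ C * E + E := by linarith
    _ = (C + 1) * E := by ring

end Pool.Agent.Results.MP_d565f2_an.TorusPowerSavingAllDims
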